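import Pool.Agent.PCL.Stmts

/-!
Squad PCL (MP_1fc801_co), row CNT: the number of the points of a box.
-/

set_option autoImplicit false

namespace Pool.Agent.PCL.H27

theorem card_side {t : ℝ} (ht : 0 ≤ t) :
    (Finset.Icc (-⌊t⌋) ⌊t⌋).card = 2 * ⌊t⌋₊ + 1 := by
  rw [Int.card_Icc]
  have h1 : 0 ≤ ⌊t⌋ := Int.floor_nonneg.2 ht
  have h2 : ⌊t⌋.toNat = ⌊t⌋₊ := Int.floor_toNat t
  omega

theorem card_bx {ι : Type} [Fintype ι] [DecidableEq ι] (N : ι → ℕ) {r : ℝ} (hr : 0 ≤ r) :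
    (bx N r).card = ∏ i, (2 * ⌊r * N i⌋₊ + 1) := by
  unfold bx
  rw [Fintype.card_piFinset]
  exact Finset.prod_congr rfl fun i _ => card_side (mul_nonneg hr (Nat.cast_nonneg _))

theorem floor_two {t : ℝ} (ht : 0 ≤ t) : 2 * ⌊2 * t⌋₊ + 1 ≤ 3 * (2 * ⌊t⌋₊ + 1) := by
  have h1 : ⌊2 * t⌋₊ < 2 * ⌊t⌋₊ + 2 := by
    rw [Nat.floor_lt (by positivity)]
    push_cast
    linarith [Nat.lt_floor_add_one t]
  omega

theorem cnt : CntStmt := by
  intro ι _ _ N r hr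
  refine ⟨card_bx N hr, ?_, ?_⟩
  · rw [card_bx N hr, card_bx N (mul_nonneg zero_le_two hr)]
    have h1 : ∏ i, (2 * ⌊2 * r * N i⌋₊ + 1) ≤ ∏ i, 3 * (2 * ⌊r * N i⌋₊ + 1) := by
      refine Finset.prod_le_prod' fun i _ => ?_
      rw [mul_assoc]
      exact floor_two (mul_nonneg hr (Nat.cast_nonneg _))
    rw [Finset.prod_mul_distrib, Finset.prod_const, Finset.card_univ] at h1
    exact_mod_cast h1
  · rw [card_bx N hr]
    push_cast
    refine Finset.prod_le_prod (fun i _ => by positivity) fun i _ => ?_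
    linarith [Nat.floor_le (mul_nonneg hr (Nat.cast_nonneg (α := ℝ) (N i)))]

end Pool.Agent.PCL.H27
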